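import Pool.Agent.Helper59.Tur.NoHole
import Pool.Graph.R_pool_sql_team_seeded_63374d34.Results.MP_466853_co.ColouredTournaments

/-!
# The exact Turán number for 3-graphs given by coloured mixed graphs

In a mixed graph every pair of vertices is either an arc or an unoriented edge. Let the arcs and
the unoriented edges be coloured with any numbers of colours. Call a triple of vertices an edge if
no vertex of the triple sends arcs of the same colour to the two others, and the triple is not a
triangle of unoriented edges of one colour. If this 3-graph is `K_4^3`-free then it has at most as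
many edges as Turán's construction, for every number `n` of vertices; Turán's construction is one
of these 3-graphs, with one colour for the arcs and one for the unoriented edges.
-/

set_option autoImplicit false
open Finset
open scoped Classical

namespace Pool.Agent.Results.MP_466853_co.MixedGraphs

/-- `R` is (the arc relation of) an oriented graph: no loops, and at most one arc between two
vertices. -/
def IsOriented {n : ℕ} (R : Fin n → Fin n → Prop) : Prop := ∀ x y, R x y → ¬ R y x

/-- The 3-graph of the mixed graph with the arcs `R`, coloured by `col` (`col x y` is the colour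
of the arc from `x` to `y`), in which all other pairs of vertices are unoriented edges, coloured
by `ecol`: the triples in which no vertex sends arcs of the same colour to the two others and
which are not three unoriented edges of the same colour. -/
noncomputable def mixed {n : ℕ} (R : Fin n → Fin n → Prop) (col ecol : Fin n → Fin n → ℕ) :
    Finset (Finset (Fin n)) :=
  (univ.powersetCard 3).filter fun s : Finset (Fin n) =>
    (¬ ∃ x ∈ s, ∃ y ∈ s, ∃ z ∈ s, y ≠ z ∧ R x y ∧ R x z ∧ col x y = col x z) ∧
    ¬ ∃ j, ∀ x ∈ s, ∀ y ∈ s, x ≠ y → ¬ R x y ∧ ¬ R y x ∧ ecol x y = j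

/-- The 3-graph `H` has no four vertices spanning all four triples. -/
def K43Free {n : ℕ} (H : Finset (Finset (Fin n))) : Prop :=
  ∀ S : Finset (Fin n), S.card = 4 → ∃ s ⊆ S, s.card = 3 ∧ s ∉ H

/-- Turán's number `f(n)`: `f(3s) = s(s-1)(2s-1)`, `f(3s+1) = s^2(2s-1)`, `f(3s+2) = s^2(2s+1)`.
Turán's construction has `C(n,3) - f(n)` edges. -/
def turan (n : ℕ) : ℕ :=
  if n % 3 = 0 then (n / 3) * (n / 3 - 1) * (2 * (n / 3) - 1)
  else if n % 3 = 1 then (n / 3) ^ 2 * (2 * (n / 3) - 1)
  else (n / 3) ^ 2 * (2 * (n / 3) + 1)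

open Pool.Agent.Helper59.Tur

/-- the three vertices of a triple which is not an edge -/
theorem t3_of {n : ℕ} {R : Fin n → Fin n → Prop} {col ecol : Fin n → Fin n → ℕ}
    (hR : IsOriented R) {p q r : Fin n} (hpq : p ≠ q) (hpr : p ≠ r) (hqr : q ≠ r)
    (h : ({p, q, r} : Finset (Fin n)) ∉ mixed R col ecol) : T3 R ecol p q r := by
  have irr : ∀ x, ¬ R x x := fun x hx => hR x x hx hx
  have h3 : ({p, q, r} : Finset (Fin n)) ∈ (univ : Finset (Fin n)).powersetCard 3 := by
    rw [mem_powersetCard]
    refine ⟨subset_univ _, ?_⟩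
    rw [card_insert_of_notMem, card_insert_of_notMem, card_singleton] <;> simp [hpq, hpr, hqr]
  unfold mixed at h
  rw [mem_filter, not_and] at h
  have h' := h h3
  rw [not_and_or, not_not, not_not] at h'
  rcases h' with ⟨x, hx, y, hy, z, hz, hyz, h1, h2, _⟩ | ⟨j, hj⟩
  · unfold T3
    simp only [mem_insert, mem_singleton] at hx hy hz
    rcases hx with rfl | rfl | rfl <;> rcases hy with rfl | rfl | rfl <;>
      rcases hz with rfl | rfl | rfl <;>
      first
      | exact absurd rfl hyz
      | exact absurd h1 (irr _)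
      | exact absurd h2 (irr _)
      | exact Or.inl ⟨h1, h2⟩
      | exact Or.inl ⟨h2, h1⟩
      | exact Or.inr (Or.inl ⟨h1, h2⟩)
      | exact Or.inr (Or.inl ⟨h2, h1⟩)
      | exact Or.inr (Or.inr (Or.inl ⟨h1, h2⟩))
      | exact Or.inr (Or.inr (Or.inl ⟨h2, h1⟩))
  · right
    right
    right
    exact ⟨j, ⟨hpq, hj p (by simp) q (by simp) hpq⟩, ⟨hpr, hj p (by simp) r (by simp) hpr⟩,
      ⟨hqr, hj q (by simp) r (by simp) hqr⟩⟩

theorem cov_of {n : ℕ} {R : Fin n → Fin n → Prop} {col ecol : Fin n → Fin n → ℕ}
    (hR : IsOriented R) (hK : K43Free (mixed R col ecol)) : Cov R ecol univ := by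
  intro a _ b _ c _ d _ hab hac had hbc hbd hcd
  have hQ : ({a, b, c, d} : Finset (Fin n)).card = 4 := by
    rw [card_insert_of_notMem, card_insert_of_notMem, card_pair hcd] <;>
      simp [hab, hac, had, hbc, hbd]
  obtain ⟨s, hs, hs3, hsm⟩ := hK _ hQ
  obtain ⟨w, hw, hws⟩ : ∃ w ∈ ({a, b, c, d} : Finset (Fin n)), w ∉ s := by
    by_contra hcon
    push Not at hcon
    have := card_le_card (show ({a, b, c, d} : Finset (Fin n)) ⊆ s from hcon)
    omega
  have hse : s = ({a, b, c, d} : Finset (Fin n)).erase w := by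
    apply eq_of_subset_of_card_le
    · intro v hv
      exact mem_erase.2 ⟨fun h => hws (h ▸ hv), hs hv⟩
    · rw [card_erase_of_mem hw, hQ, hs3]
  simp only [mem_insert, mem_singleton] at hw
  rcases hw with rfl | rfl | rfl | rfl
  · right; right; right
    apply t3_of hR hbc hbd hcd
    have : s = {b, c, d} := by
      rw [hse]
      ext v
      simp only [mem_erase, mem_insert, mem_singleton]
      constructor
      · rintro ⟨h1, h2⟩
        tauto
      · rintro (rfl | rfl | rfl)
        · exact ⟨hab.symm, by simp⟩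
        · exact ⟨hac.symm, by simp⟩
        · exact ⟨had.symm, by simp⟩
    rwa [← this]
  · right; right; left
    apply t3_of hR hac had hcd
    have : s = {a, c, d} := by
      rw [hse]
      ext v
      simp only [mem_erase, mem_insert, mem_singleton]
      constructor
      · rintro ⟨h1, h2⟩
        tauto
      · rintro (rfl | rfl | rfl)
        · exact ⟨hab, by simp⟩
        · exact ⟨hbc.symm, by simp⟩
        · exact ⟨hbd.symm, by simp⟩
    rwa [← this]
  · right; left
    apply t3_of hR hab had hbd
    have : s = {a, b, d} := by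
      rw [hse]
      ext v
      simp only [mem_erase, mem_insert, mem_singleton]
      constructor
      · rintro ⟨h1, h2⟩
        tauto
      · rintro (rfl | rfl | rfl)
        · exact ⟨hac, by simp⟩
        · exact ⟨hbc, by simp⟩
        · exact ⟨hcd.symm, by simp⟩
    rwa [← this]
  · left
    apply t3_of hR hab hac hbc
    have : s = {a, b, c} := by
      rw [hse]
      ext v
      simp only [mem_erase, mem_insert, mem_singleton]
      constructor
      · rintro ⟨h1, h2⟩
        tauto
      · rintro (rfl | rfl | rfl)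
        · exact ⟨had, by simp⟩
        · exact ⟨hbd, by simp⟩
        · exact ⟨hcd, by simp⟩
    rwa [← this]

/-- the three elements of a triple -/
theorem eq_triple {n : ℕ} {s : Finset (Fin n)} (hs : s.card = 3) {x y z : Fin n} (hx : x ∈ s)
    (hy : y ∈ s) (hz : z ∈ s) (hxy : x ≠ y) (hxz : x ≠ z) (hyz : y ≠ z) : s = {x, y, z} := by
  symm
  apply eq_of_subset_of_card_le
  · intro w hw
    simp only [mem_insert, mem_singleton] at hw
    rcases hw with rfl | rfl | rfl <;> assumption
  · rw [hs, card_insert_of_notMem, card_insert_of_notMem, card_singleton] <;>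
      simp [hxy, hxz, hyz]

/-- the triples which are not edges of the mixed graph and of the arc-coloured tournament -/
theorem triple_iff {n : ℕ} {R : Fin n → Fin n → Prop} {col ecol : Fin n → Fin n → ℕ}
    (he : ∀ x y, ecol x y = ecol y x) {σ : ℕ → Fin n → ℕ}
    (hinj : ∀ j x y, σ j x = σ j y → x = y)
    (hσ : ∀ j x y z, σ j x < σ j y → σ j x < σ j z → y ≠ z → E R ecol j x y → E R ecol j x z →
      E R ecol j y z)
    {R' : Fin n → Fin n → Prop} {col' : Fin n → Fin n → ℕ}
    (hR' : ∀ x y, R' x y ↔ (R x y ∨ (x ≠ y ∧ ¬ R x y ∧ ¬ R y x ∧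
      σ (ecol x y) x < σ (ecol x y) y)))
    (c1 : ∀ x y, R x y → col' x y = 2 * col x y)
    (c2 : ∀ x y, ¬ R x y → col' x y = 2 * ecol x y + 1) {s : Finset (Fin n)} (hs : s.card = 3) :
    (∃ x ∈ s, ∃ y ∈ s, ∃ z ∈ s, y ≠ z ∧ R' x y ∧ R' x z ∧ col' x y = col' x z) ↔
      ((∃ x ∈ s, ∃ y ∈ s, ∃ z ∈ s, y ≠ z ∧ R x y ∧ R x z ∧ col x y = col x z) ∨
        ∃ j, ∀ x ∈ s, ∀ y ∈ s, x ≠ y → ¬ R x y ∧ ¬ R y x ∧ ecol x y = j) := by
  constructor
  · rintro ⟨x, hx, y, hy, z, hz, hyz, h1, h2, h3⟩
    rw [hR'] at h1 h2
    by_cases hxy : R x y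
    · rw [c1 x y hxy] at h3
      by_cases hxz : R x z
      · rw [c1 x z hxz] at h3
        exact Or.inl ⟨x, hx, y, hy, z, hz, hyz, hxy, hxz, by omega⟩
      · rw [c2 x z hxz] at h3
        omega
    · rw [c2 x y hxy] at h3
      by_cases hxz : R x z
      · rw [c1 x z hxz] at h3
        omega
      · rw [c2 x z hxz] at h3
        right
        have hj : ecol x z = ecol x y := by omega
        have h1' := h1.resolve_left hxy
        have h2' := h2.resolve_left hxz
        rw [hj] at h2'
        have e1 : E R ecol (ecol x y) x y := ⟨h1'.1, h1'.2.1, h1'.2.2.1, rfl⟩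
        have e2 : E R ecol (ecol x y) x z := ⟨h2'.1, h2'.2.1, h2'.2.2.1, hj⟩
        have e3 := hσ (ecol x y) x y z h1'.2.2.2 h2'.2.2.2 hyz e1 e2
        obtain ⟨j, hj'⟩ : ∃ j, j = ecol x y := ⟨_, rfl⟩
        rw [← hj'] at e1 e2 e3
        have e1' := e1.symm he
        have e2' := e2.symm he
        have e3' := e3.symm he
        refine ⟨j, ?_⟩
        have key : ∀ u ∈ s, u = x ∨ u = y ∨ u = z := by
          intro u hu
          rw [eq_triple hs hx hy hz h1'.1 h2'.1 hyz] at hu
          simpa using hu
        intro u hu v hv huv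
        rcases key u hu with hu | hu | hu <;> rcases key v hv with hv | hv | hv
        · exact absurd (hu.trans hv.symm) huv
        · rw [hu, hv]
          exact e1.2
        · rw [hu, hv]
          exact e2.2
        · rw [hu, hv]
          exact e1'.2
        · exact absurd (hu.trans hv.symm) huv
        · rw [hu, hv]
          exact e3.2
        · rw [hu, hv]
          exact e2'.2
        · rw [hu, hv]
          exact e3'.2
        · exact absurd (hu.trans hv.symm) huv
  · rintro (⟨x, hx, y, hy, z, hz, hyz, h1, h2, h3⟩ | ⟨j, hj⟩)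
    · refine ⟨x, hx, y, hy, z, hz, hyz, (hR' x y).2 (Or.inl h1), (hR' x z).2 (Or.inl h2), ?_⟩
      rw [c1 x y h1, c1 x z h2, h3]
    · have hne : s.Nonempty := card_pos.1 (by omega)
      obtain ⟨x, hx, hmin⟩ := exists_min_image s (σ j) hne
      have h2 : (s.erase x).card = 2 := by
        rw [card_erase_of_mem hx, hs]
      obtain ⟨y, z, hyz, hyze⟩ := card_eq_two.1 h2
      have hy : y ∈ s.erase x := by
        rw [hyze]
        simp
      have hz : z ∈ s.erase x := by
        rw [hyze]
        simp
      rw [mem_erase] at hy hz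
      have key : ∀ y, y ≠ x → y ∈ s → R' x y ∧ col' x y = 2 * j + 1 := by
        intro y hyx hys
        have h3 := hj x hx y hys (Ne.symm hyx)
        have h4 := hmin y hys
        have h5 : σ j x ≠ σ j y := fun h => hyx (hinj j x y h).symm
        refine ⟨(hR' x y).2 (Or.inr ⟨Ne.symm hyx, h3.1, h3.2.1, ?_⟩), ?_⟩
        · rw [h3.2.2]
          omega
        · rw [c2 x y h3.1, h3.2.2]
      have k1 := key y hy.1 hy.2
      have k2 := key z hz.1 hz.2
      exact ⟨x, hx, y, hy.2, z, hz.2, hyz, k1.1, k2.1, k1.2.trans k2.2.symm⟩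

theorem upper {n : ℕ} (R : Fin n → Fin n → Prop) (col ecol : Fin n → Fin n → ℕ)
    (hR : IsOriented R) (he : ∀ x y, ecol x y = ecol y x) (hK : K43Free (mixed R col ecol)) :
    (mixed R col ecol).card + turan n ≤ n.choose 3 := by
  have hcov := cov_of hR hK
  -- an elimination order for every colour
  have hpeo : ∀ j, ∃ σ : Fin n → ℕ, (∀ x y, σ x = σ y → x = y) ∧ ∀ x y z, σ x < σ y →
      σ x < σ z → y ≠ z → E R ecol j x y → E R ecol j x z → E R ecol j y z := by
    intro j
    obtain ⟨σ, h1, h2⟩ := exists_peo (N := E R ecol j) (fun x y h => h.symm he) n univ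
      (by rw [card_univ, Fintype.card_fin]) (no_hole hR he hcov j)
    exact ⟨σ, fun x y => h1 x (mem_univ _) y (mem_univ _),
      fun x y z => h2 x (mem_univ _) y (mem_univ _) z (mem_univ _)⟩
  choose σ hinj hσ using hpeo
  obtain ⟨R', hR'⟩ : ∃ R' : Fin n → Fin n → Prop, ∀ x y, R' x y ↔ (R x y ∨
      (x ≠ y ∧ ¬ R x y ∧ ¬ R y x ∧ σ (ecol x y) x < σ (ecol x y) y)) :=
    ⟨_, fun x y => Iff.rfl⟩
  obtain ⟨col', c1, c2⟩ : ∃ col' : Fin n → Fin n → ℕ, (∀ x y, R x y → col' x y = 2 * col x y) ∧
      ∀ x y, ¬ R x y → col' x y = 2 * ecol x y + 1 :=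
    ⟨fun x y => if R x y then 2 * col x y else 2 * ecol x y + 1, fun x y h => if_pos h,
      fun x y h => if_neg h⟩
  have hor : ColouredTournaments.IsOriented R' := by
    intro x y h1 h2
    rw [hR'] at h1 h2
    rcases h1 with h1 | h1
    · rcases h2 with h2 | h2
      · exact hR x y h1 h2
      · exact h2.2.2.1 h1
    · rcases h2 with h2 | h2
      · exact h1.2.2.1 h2
      · have h3 := h1.2.2.2
        have h4 := h2.2.2.2
        rw [he y x] at h4
        omega
  have heq : ColouredTournaments.coloured R' col' = mixed R col ecol := by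
    ext s
    unfold ColouredTournaments.coloured mixed
    rw [mem_filter, mem_filter, ← not_or]
    apply and_congr_right
    intro hs
    exact not_congr (triple_iff he hinj hσ hR' c1 c2 (mem_powersetCard.1 hs).2)
  have h1 := ColouredTournaments.upper R' col' hor (by
    rw [heq]
    exact hK)
  rw [heq] at h1
  exact h1

/-- Turán's oriented graph: all arcs from each residue class mod 3 to the next one -/
def turanR (n : ℕ) (x y : Fin n) : Prop := (y : ℕ) % 3 = ((x : ℕ) + 1) % 3

theorem turan_oriented (n : ℕ) : IsOriented (turanR n) := by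
  intro x y h1 h2
  unfold turanR at h1 h2
  omega

/-- Turán's construction -/
noncomputable def turanH (n : ℕ) : Finset (Finset (Fin n)) :=
  mixed (turanR n) (fun _ _ => 0) (fun _ _ => 0)

open Pool.Agent.Results.MP_466853_co.ColouredTournaments in
/-- the triples which are not edges of Turán's construction -/
theorem turan_compl (n : ℕ) : (univ.powersetCard 3) \ turanH n ⊆
    (range 3).biUnion (fun i => (cls n i).powersetCard 3 ∪
      ((cls n i) ×ˢ ((cls n (i + 1)).powersetCard 2)).image (fun p => insert p.1 p.2)) := by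
  intro s hs
  rw [mem_sdiff] at hs
  obtain ⟨hs3, hse⟩ := hs
  have hcard := (mem_powersetCard.1 hs3).2
  unfold turanH mixed at hse
  rw [mem_filter, not_and, not_and_or, not_not, not_not] at hse
  rw [mem_biUnion]
  rcases hse hs3 with ⟨x, hx, y, hy, z, hz, hyz, h1, h2, _⟩ | ⟨j, hj⟩
  · have hxy : x ≠ y := by
      rintro rfl
      exact turan_oriented n _ _ h1 h1
    have hxz : x ≠ z := by
      rintro rfl
      exact turan_oriented n _ _ h2 h2
    have hs := eq_triple hcard hx hy hz hxy hxz hyz
    refine ⟨(x : ℕ) % 3, mem_range.2 (Nat.mod_lt _ (by norm_num)), mem_union.2 (Or.inr ?_)⟩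
    unfold turanR at h1 h2
    refine mem_image.2 ⟨(x, {y, z}), mem_product.2 ⟨mem_filter.2 ⟨mem_univ _, by simp⟩,
      mem_powersetCard.2 ⟨fun w hw => mem_filter.2 ⟨mem_univ _, ?_⟩, ?_⟩⟩, hs.symm⟩
    · simp only [mem_insert, mem_singleton] at hw
      rcases hw with rfl | rfl <;> omega
    · rw [card_insert_of_notMem (by simpa using hyz), card_singleton]
  · obtain ⟨x, hx⟩ : s.Nonempty := card_pos.1 (by omega)
    refine ⟨(x : ℕ) % 3, mem_range.2 (Nat.mod_lt _ (by norm_num)), mem_union.2 (Or.inl ?_)⟩
    refine mem_powersetCard.2 ⟨fun w hw => mem_filter.2 ⟨mem_univ _, ?_⟩, hcard⟩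
    by_cases hwx : w = x
    · rw [hwx]
      simp
    · have h1 := hj w hw x hx hwx
      unfold turanR at h1
      omega

open Pool.Agent.Results.MP_466853_co.ColouredTournaments in
/-- Turán's construction is one of the 3-graphs. -/
theorem lower (n : ℕ) : n.choose 3 ≤ (turanH n).card + turan n := by
  have h1 := card_le_card (turan_compl n)
  have h2 := h1.trans (card_biUnion_le.trans (sum_le_sum fun i _ =>
    (card_union_le _ _).trans (Nat.add_le_add_left card_image_le _)))
  simp only [card_powersetCard, card_product] at h2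
  rw [choose_bound] at h2
  have h3 : turanH n ⊆ univ.powersetCard 3 := filter_subset _ _
  have h4 := card_sdiff_add_card_eq_card h3
  rw [card_powersetCard, card_univ, Fintype.card_fin] at h4
  have h5 : ColouredTournaments.turan n = turan n := rfl
  omega

theorem turan_free (n : ℕ) : K43Free (turanH n) := by
  intro S hS
  -- two of the four vertices are in the same class
  obtain ⟨x, hx, y, hy, hxy, hmod⟩ : ∃ x ∈ S, ∃ y ∈ S, x ≠ y ∧ (x : ℕ) % 3 = (y : ℕ) % 3 := by
    have hcard : (range 3).card < S.card := by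
      rw [hS, card_range]
      norm_num
    obtain ⟨x, hx, y, hy, hxy, h⟩ := exists_ne_map_eq_of_card_lt_of_maps_to hcard
      (fun z _ => mem_coe.2 (mem_range.2 (Nat.mod_lt (z : ℕ) (by norm_num))))
    exact ⟨x, hx, y, hy, hxy, h⟩
  have h2 : ((S.erase x).erase y).card = 2 := by
    rw [card_erase_of_mem (mem_erase.2 ⟨hxy.symm, hy⟩), card_erase_of_mem hx, hS]
  obtain ⟨c, d, hcd, he⟩ := card_eq_two.1 h2
  have hc : c ∈ (S.erase x).erase y := by
    rw [he]
    simp
  have hd : d ∈ (S.erase x).erase y := by
    rw [he]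
    simp
  rw [mem_erase, mem_erase] at hc hd
  have card3 : ∀ {a b c : Fin n}, a ≠ b → a ≠ c → b ≠ c →
      ({a, b, c} : Finset (Fin n)).card = 3 := by
    intro a b c h1 h2 h3
    rw [card_insert_of_notMem, card_insert_of_notMem, card_singleton] <;> simp [h1, h2, h3]
  have sub3 : ∀ {a b c : Fin n}, a ∈ S → b ∈ S → c ∈ S → ({a, b, c} : Finset (Fin n)) ⊆ S := by
    intro a b c h1 h2 h3 w hw
    simp only [mem_insert, mem_singleton] at hw
    rcases hw with rfl | rfl | rfl <;> assumption
  have out : ∀ {a b c : Fin n}, b ≠ c → turanR n a b → turanR n a c →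
      ({a, b, c} : Finset (Fin n)) ∉ turanH n := by
    intro a b c hbc h1 h2 h3
    unfold turanH mixed at h3
    rw [mem_filter] at h3
    exact h3.2.1 ⟨a, by simp, b, by simp, c, by simp, hbc, h1, h2, rfl⟩
  -- the first of the two others
  by_cases h1 : (c : ℕ) % 3 = (x : ℕ) % 3
  · refine ⟨{c, x, y}, sub3 hc.2.2 hx hy, card3 hc.2.1 hc.1 hxy, ?_⟩
    intro h3
    unfold turanH mixed at h3
    rw [mem_filter] at h3
    apply h3.2.2
    refine ⟨0, ?_⟩
    intro u hu v hv _
    simp only [mem_insert, mem_singleton] at hu hv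
    unfold turanR
    have hu' : (u : ℕ) % 3 = (x : ℕ) % 3 := by
      rcases hu with rfl | rfl | rfl
      · exact h1
      · rfl
      · exact hmod.symm
    have hv' : (v : ℕ) % 3 = (x : ℕ) % 3 := by
      rcases hv with rfl | rfl | rfl
      · exact h1
      · rfl
      · exact hmod.symm
    refine ⟨?_, ?_, rfl⟩ <;> omega
  · by_cases h1' : (d : ℕ) % 3 = (x : ℕ) % 3
    · refine ⟨{d, x, y}, sub3 hd.2.2 hx hy, card3 hd.2.1 hd.1 hxy, ?_⟩
      intro h3
      unfold turanH mixed at h3
      rw [mem_filter] at h3
      apply h3.2.2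
      refine ⟨0, ?_⟩
      intro u hu v hv _
      simp only [mem_insert, mem_singleton] at hu hv
      unfold turanR
      have hu' : (u : ℕ) % 3 = (x : ℕ) % 3 := by
        rcases hu with rfl | rfl | rfl
        · exact h1'
        · rfl
        · exact hmod.symm
      have hv' : (v : ℕ) % 3 = (x : ℕ) % 3 := by
        rcases hv with rfl | rfl | rfl
        · exact h1'
        · rfl
        · exact hmod.symm
      refine ⟨?_, ?_, rfl⟩ <;> omega
    · by_cases h4 : (x : ℕ) % 3 = ((c : ℕ) + 1) % 3
      · exact ⟨{c, x, y}, sub3 hc.2.2 hx hy, card3 hc.2.1 hc.1 hxy,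
          out hxy h4 (by unfold turanR; omega)⟩
      · by_cases h5 : (x : ℕ) % 3 = ((d : ℕ) + 1) % 3
        · exact ⟨{d, x, y}, sub3 hd.2.2 hx hy, card3 hd.2.1 hd.1 hxy,
            out hxy h5 (by unfold turanR; omega)⟩
        · exact ⟨{x, c, d}, sub3 hx hc.2.2 hd.2.2, card3 hc.2.1.symm hd.2.1.symm hcd,
            out hcd (by unfold turanR; omega) (by unfold turanR; omega)⟩

/-- **The exact Turán number of the `K_4^3`-free 3-graphs of coloured mixed graphs.** For every
`n`, `C(n,3) - f(n)` is the largest number of edges of a `K_4^3`-free 3-graph `mixed R col ecol`,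
where `R` is an oriented graph on `n` vertices, `col` a colouring of its arcs and `ecol` a
colouring of the other pairs, with any numbers of colours; it is attained with one colour for the
arcs and one colour for the other pairs. -/
theorem result (n : ℕ) :
    (∀ (R : Fin n → Fin n → Prop) (col ecol : Fin n → Fin n → ℕ), IsOriented R →
      (∀ x y, ecol x y = ecol y x) → K43Free (mixed R col ecol) →
      (mixed R col ecol).card + turan n ≤ n.choose 3) ∧
    (∃ R : Fin n → Fin n → Prop, IsOriented R ∧
      K43Free (mixed R (fun _ _ => 0) (fun _ _ => 0)) ∧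
      (mixed R (fun _ _ => 0) (fun _ _ => 0)).card + turan n = n.choose 3) :=
  ⟨fun R col ecol hR he hK => upper R col ecol hR he hK, turanR n, turan_oriented n,
    turan_free n, le_antisymm (upper _ _ _ (turan_oriented n) (fun _ _ => rfl) (turan_free n))
      (lower n)⟩

end Pool.Agent.Results.MP_466853_co.MixedGraphs
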