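import Pool.Agent.Helper3.CC.Rob
import Pool.Agent.Helper43.RB.LIM
import Pool.Agent.Helper66.RB.BL
import Pool.Agent.Helper3.OP.Low4

/-!
# MP_466853_co: Turán's bound for all 3-graphs, in terms of three ordered patterns
-/

set_option autoImplicit false
set_option linter.unusedVariables false
open Finset

namespace Pool.Agent.Results.MP_466853_co.OrderedThreePatterns

/-- For `a < b < c < d`: the triples `abc`, `acd`, `bcd` are all edges; or `abc` is the only edge
inside `{a, b, c, d}`; or `bcd` is the only edge inside `{a, b, c, d}`. -/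
def IsBad {V : Type} [LinearOrder V] (H : Finset (Finset V)) (a b c d : V) : Prop :=
  (({a, b, c} : Finset V) ∈ H ∧ ({a, c, d} : Finset V) ∈ H ∧ ({b, c, d} : Finset V) ∈ H) ∨
  (({a, b, c} : Finset V) ∈ H ∧ ({a, b, d} : Finset V) ∉ H ∧ ({a, c, d} : Finset V) ∉ H ∧
    ({b, c, d} : Finset V) ∉ H) ∨
  (({a, b, c} : Finset V) ∉ H ∧ ({a, b, d} : Finset V) ∉ H ∧ ({a, c, d} : Finset V) ∉ H ∧
    ({b, c, d} : Finset V) ∈ H)

open scoped Classical in
/-- the bad sets of four vertices -/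
noncomputable def bad {V : Type} [Fintype V] [LinearOrder V] (H : Finset (Finset V)) :
    Finset (Finset V) :=
  univ.filter fun T => ∃ a b c d : V, a < b ∧ b < c ∧ c < d ∧ T = {a, b, c, d} ∧ IsBad H a b c d

open scoped Classical in
theorem mem_bad {V : Type} [Fintype V] [LinearOrder V] {H : Finset (Finset V)} {T : Finset V} :
    T ∈ bad H ↔ ∃ a b c d : V, a < b ∧ b < c ∧ c < d ∧ T = {a, b, c, d} ∧ IsBad H a b c d := by
  unfold bad
  rw [mem_filter]
  exact ⟨fun h => h.2, fun h => ⟨mem_univ _, h⟩⟩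

open Pool.Agent.Helper3 Pool.Agent.Helper3.OP Pool.Agent.Helper3.RB

theorem badT_sub {V : Type} [Fintype V] [LinearOrder V] (H : Finset (Finset V)) :
    badT CC.ok H ⊆ bad H := by
  intro T hT
  unfold badT at hT
  rw [mem_filter] at hT
  obtain ⟨hT4, hT⟩ := hT
  obtain ⟨κ, rfl⟩ := exists_img (mem_P.1 hT4)
  have l1 : κ 0 < κ 1 := κ.lt_iff_lt.2 (by decide)
  have l2 : κ 1 < κ 2 := κ.lt_iff_lt.2 (by decide)
  have l3 : κ 2 < κ 3 := κ.lt_iff_lt.2 (by decide)
  refine mem_bad.2 ⟨κ 0, κ 1, κ 2, κ 3, l1, l2, l3, ?_, ?_⟩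
  · unfold img
    ext x
    simp only [mem_map, mem_univ, true_and, mem_insert, mem_singleton]
    constructor
    · rintro ⟨i, rfl⟩
      fin_cases i
      · exact Or.inl rfl
      · exact Or.inr (Or.inl rfl)
      · exact Or.inr (Or.inr (Or.inl rfl))
      · exact Or.inr (Or.inr (Or.inr rfl))
    · rintro (rfl | rfl | rfl | rfl)
      · exact ⟨0, rfl⟩
      · exact ⟨1, rfl⟩
      · exact ⟨2, rfl⟩
      · exact ⟨3, rfl⟩
  · by_contra hb
    unfold IsBad at hb
    rw [C4_img] at hT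
    unfold cod4 at hT
    unfold e at hT
    by_cases e1 : ({κ 0, κ 1, κ 2} : Finset V) ∈ H <;>
      by_cases e2 : ({κ 0, κ 1, κ 3} : Finset V) ∈ H <;>
      by_cases e3 : ({κ 0, κ 2, κ 3} : Finset V) ∈ H <;>
      by_cases e4 : ({κ 1, κ 2, κ 3} : Finset V) ∈ H <;>
      simp only [e1, e2, e3, e4, if_true, if_false, not_true_eq_false, not_false_eq_true, and_true,
        and_false, or_false, false_or] at hT hb <;>
      first
        | exact hb
        | exact hb trivial
        | exact absurd hT (by decide +kernel)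

theorem part (n : ℕ) : ∃ H : Finset (Finset (Fin n)), (∀ A ∈ H, A.card = 3) ∧ bad H = ∅ ∧
    5 / 54 * (n : ℝ) ^ 3 - 2 * (n : ℝ) ^ 2 ≤ (H.card : ℝ) := by
  have hE : ∀ i j l m : Fin 3, j ≤ i → l ≤ j → m ≤ l →
      (¬ (Low4.E i j l = true ∧ Low4.E i l m = true ∧ Low4.E j l m = true) ∧
      (Low4.E i j l = true → Low4.E i j m = true ∨ Low4.E i l m = true ∨ Low4.E j l m = true) ∧
      (Low4.E j l m = true → Low4.E i j l = true ∨ Low4.E i j m = true ∨
        Low4.E i l m = true)) := by decide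
  have mem : ∀ a b c : Fin n, a < b → b < c → (({a, b, c} : Finset (Fin n)) ∈
      Low4.H (Low4.p' : Fin n → Fin 3) ↔
      Low4.E (Low4.p' a) (Low4.p' b) (Low4.p' c) = true) :=
    fun a b c hab hbc => Low4.mem_H hab.ne (hab.trans hbc).ne hbc.ne
  refine ⟨Low4.H Low4.p', fun A hA => Low4.H_card hA, ?_, Low4.H_large Low4.bal_p'⟩
  rw [eq_empty_iff_forall_notMem]
  intro T hT
  obtain ⟨a, b, c, d, hab, hbc, hcd, _, hb⟩ := mem_bad.1 hT
  unfold IsBad at hb
  rw [mem a b c hab hbc, mem a b d hab (hbc.trans hcd), mem a c d (hab.trans hbc) hcd,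
    mem b c d hbc hcd] at hb
  obtain ⟨h1, h2, h3⟩ := hE _ _ _ _ (Low4.p'_anti hab) (Low4.p'_anti hbc) (Low4.p'_anti hcd)
  rcases hb with hb | ⟨k1, k2, k3, k4⟩ | ⟨k1, k2, k3, k4⟩
  · exact h1 hb
  · rcases h2 k1 with h | h | h
    · exact k2 h
    · exact k3 h
    · exact k4 h
  · rcases h3 k4 with h | h | h
    · exact k1 h
    · exact k2 h
    · exact k3 h

/-- **Turán's bound for all 3-graphs, in terms of three ordered patterns.** Let `H` be any 3-graph
on a linearly ordered set of `n` vertices. Call a set of four vertices `a < b < c < d` bad if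
`abc`, `acd`, `bcd` are all edges, or `abc` is its only edge, or `bcd` is its only edge. Then
`n |H| ≤ 5 n ^ 4 / 54 + 290 |bad H|`. In particular `54 |H| ≤ 5 n ^ 3`, Turán's conjectured bound,
if there is no bad set; Turán's construction has no bad sets. -/
theorem result :
    (∀ (V : Type) [Fintype V] [LinearOrder V] (H : Finset (Finset V)), (∀ A ∈ H, A.card = 3) →
      54 * Fintype.card V * H.card ≤ 5 * Fintype.card V ^ 4 + 15660 * (bad H).card) ∧
    (∀ n : ℕ, ∃ H : Finset (Finset (Fin n)), (∀ A ∈ H, A.card = 3) ∧ bad H = ∅ ∧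
      5 / 54 * (n : ℝ) ^ 3 - 2 * (n : ℝ) ^ 2 ≤ (H.card : ℝ)) := by
  refine ⟨fun V _ _ H h3 => ?_, part⟩
  have h := CC.robust Pool.Agent.Helper66.RB.s_bl Pool.Agent.Helper43.RB.lim V H h3
  have h1 : ((badT CC.ok H).card : ℝ) ≤ ((bad H).card : ℝ) := by
    exact_mod_cast card_le_card (badT_sub H)
  have h2 : (54 : ℝ) * Fintype.card V * H.card ≤ 5 * (Fintype.card V : ℝ) ^ 4 +
      15660 * (bad H).card := by linarith
  exact_mod_cast h2

end Pool.Agent.Results.MP_466853_co.OrderedThreePatterns
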