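import Pool.Agent.Helper10.Sw.Z.Main
import Pool.Agent.Helper10.Sw.Local
import Pool.Agent.Helper10.Sw.Sharp

/-!
# 3-graphs between two systems of triples of an oriented graph

Let `H` be a `K_4^3`-free 3-graph on `n` vertices and `R` an arbitrary oriented graph on the same
vertices such that every transitive triangle of `R` is an edge of `H`, every edge of `H` spans an
arc, and no edge of `H` spans exactly two arcs with a common tail. Triples spanning exactly one
arc, in-stars, paths and cyclic triangles may be edges or not, except that no five vertices contain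
at the same time an edge with exactly one arc, a non-edge with exactly one arc, and an edge which is
a path. Then `54 |H| ≤ 5 n^3`, and if there is a set `E` of exceptional triples, then
`54 |H| ≤ 5 n^3 + 2000000 |E|`. Turán's construction shows that the constant is best possible.
-/

set_option autoImplicit false

namespace Pool.Agent.Results.MP_466853_co.OrientedSandwich

open Pool.Agent.Helper10.Sw.Stm

theorem result :
    (∀ (n : ℕ) (H E : Finset (Finset (Fin n))) (R : Fin n → Fin n → Prop),
      K43Free H → Oriented R → (∀ e ∈ E, e.card = 3) → Between H R E → NotAll H R E →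
        54 * H.card ≤ 5 * n ^ 3 + 2000000 * E.card) ∧
    (∀ m : ℕ, ∃ (H : Finset (Finset (Fin (3 * m)))) (R : Fin (3 * m) → Fin (3 * m) → Prop),
      K43Free H ∧ Oriented R ∧ Between H R ∅ ∧ NotAll H R ∅ ∧
        54 * H.card + 81 * m ^ 2 = 5 * (3 * m) ^ 3) :=
  ⟨fun _ H E R hK hO hE hB hN => Pool.Agent.Helper10.Sw.Z.main R H E hK.1 hE hO hK.2
    (Pool.Agent.Helper10.Sw.local_codes hE hO hB hN), Pool.Agent.Helper10.Sw.Sharp.turan_sharp⟩

end Pool.Agent.Results.MP_466853_co.OrientedSandwich
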