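import Pool.Agent.Helper64.Bt.Fin
import Pool.Agent.Helper64.Bt.Conv
import Pool.Agent.Helper10.Bt.Main

/-!
# Turán's (3,4)-problem for collinear triples in uniquely geodesic metric spaces

If among any four of `n` points of a metric space, in which the points between two points always
form a chain, one lies between two others, then at least `4/9` of the triples are collinear, up to
`O(n²)` triples; `4/9` is best possible (Turán's construction is realised). In all metric spaces
the bound holds up to `1/n` times the number of exceptional sets of four points.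
-/

set_option autoImplicit false
open Finset
open scoped Classical

namespace Pool.Agent.Results.MP_466853_co.UniqueGeodesics

/-- A strict betweenness relation (`B a b c`: the point `b` lies strictly between `a` and `c`). The
axioms hold in every metric space. -/
structure Betweenness {V : Type} (B : V → V → V → Prop) : Prop where
  ends : ∀ a b c, B a b c → a ≠ c
  symm : ∀ a b c, B a b c → B c b a
  mid : ∀ a b c, B a b c → ¬ B b a c
  trans : ∀ a b c e, B a b c → B a c e → B a b e ∧ B b c e

/-- the collinear triples of points of `S` -/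
noncomputable def collinear {V : Type} (B : V → V → V → Prop) (S : Finset V) :
    Finset (Finset V) :=
  (S.powersetCard 3).filter fun t => ∃ a ∈ t, ∃ b ∈ t, ∃ c ∈ t, B a b c

/-- `Q` is independent: no point of `Q` lies between two others -/
def Independent {V : Type} (B : V → V → V → Prop) (Q : Finset V) : Prop :=
  ¬ ∃ a ∈ Q, ∃ b ∈ Q, ∃ c ∈ Q, B a b c

/-- `Q` has a fork: two points `x ≠ y` of `Q` lie between two points `a` and `c` of `Q`, and
neither `x` is between `a` and `y` nor `y` between `a` and `x` -/
def Fork {V : Type} (B : V → V → V → Prop) (Q : Finset V) : Prop :=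
  ∃ a ∈ Q, ∃ x ∈ Q, ∃ y ∈ Q, ∃ c ∈ Q, x ≠ y ∧ B a x c ∧ B a y c ∧ ¬ B a x y ∧ ¬ B a y x

/-- the exceptional four-point subsets of `S`: the independent ones and those with a fork -/
noncomputable def exceptional {V : Type} (B : V → V → V → Prop) (S : Finset V) :
    Finset (Finset V) :=
  (S.powersetCard 4).filter fun Q => Independent B Q ∨ Fork B Q

/-- the number of triples of Turán's construction on `n` vertices: `s(s-1)(2s-1)`, `s^2(2s-1)`,
`s^2(2s+1)` for `n = 3s, 3s+1, 3s+2` -/
def turan (n : ℕ) : ℕ :=
  if n % 3 = 0 then (n / 3) * (n / 3 - 1) * (2 * (n / 3) - 1)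
  else if n % 3 = 1 then (n / 3) ^ 2 * (2 * (n / 3) - 1)
  else (n / 3) ^ 2 * (2 * (n / 3) + 1)

/-- `d` is a metric on `X` -/
structure IsMetric {X : Type} (d : X → X → ℝ) : Prop where
  zero : ∀ x y, d x y = 0 ↔ x = y
  symm : ∀ x y, d x y = d y x
  tri : ∀ x y z, d x z ≤ d x y + d y z

/-- the point `y` lies strictly between `x` and `z` -/
def Between {X : Type} (d : X → X → ℝ) (x y z : X) : Prop :=
  x ≠ y ∧ y ≠ z ∧ d x z = d x y + d y z

theorem exceptional_eq {V : Type} (B : V → V → V → Prop) (S : Finset V) :
    exceptional B S = Helper64.Bt.bad B S := by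
  ext Q
  simp only [exceptional, Helper64.Bt.bad, mem_filter]
  rfl

/-- **Turán's bound for collinear triples.** -/
theorem result :
    (∀ (V : Type) (B : V → V → V → Prop), Betweenness B → ∀ S : Finset V,
      4 * S.card ^ 4 ≤
        54 * S.card * (collinear B S).card + 10 ^ 8 * (S.card ^ 3 + (exceptional B S).card)) ∧
    (∀ (X : Type) (d : X → X → ℝ), IsMetric d → Betweenness (Between d)) ∧
    (∀ n : ℕ, ∃ d : Fin n → Fin n → ℝ, IsMetric d ∧ exceptional (Between d) univ = ∅ ∧
      (collinear (Between d) univ).card = turan n) := by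
  refine ⟨?_, ?_, ?_⟩
  · intro V B hB S
    rw [exceptional_eq]
    have hM : Helper64.Bt.MainH 88000000 := fun _ H h3 t ht t12 t23 hH E hE hok =>
      Helper10.Bt.main H h3 t ht t12 t23 hH E hE hok
    refine (Helper64.Bt.robustH hM ⟨hB.ends, hB.symm, hB.mid, hB.trans⟩ S).trans ?_
    exact Nat.add_le_add_left (Nat.mul_le_mul_right _ (by norm_num)) _
  · intro X d hd
    obtain ⟨h1, h2, h3, h4⟩ := Helper64.Btw.metric_axioms (d := d) ⟨hd.zero, hd.symm, hd.tri⟩
    exact ⟨h1, h2, h3, h4⟩
  · intro n
    obtain ⟨h1, h2, h3, h4⟩ := Helper64.Btw.sharp n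
    have h := Helper64.Btw.cat_axm h1 h2
    refine ⟨Helper64.Btw.td n, ⟨h1.zero, h1.symm, h1.tri⟩, ?_, h4⟩
    rw [exceptional_eq]
    exact Helper64.Bt.bad_empty (fun a _ x _ y _ c _ u v => h.geo a x y c u v) h3

end Pool.Agent.Results.MP_466853_co.UniqueGeodesics
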